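import Mathlib

/-!
# Switching configurations for discrete point X-rays

A configuration consists of two families `VA`, `VB` of lattice points, together the vertices of a
strictly convex lattice polygon, and of further lattice points `pt j` such that the lines through
`pt j` match `VA` with `VB` and no line through two of the points `pt j` meets the polygon. Removing
`VA`, respectively `VB`, from the set of all lattice points of the polygon gives two different
convex lattice sets with the same discrete point X-rays at all points `pt j`. The argument is the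
one of `Pool/Agent/Results/MP_259ac5_co/SevenPoints.lean`, for an arbitrary number of points.
-/

set_option autoImplicit false

namespace Pool.Agent.Y233.XR

open Classical

/-- The inclusion of the lattice `ℤ²` into the plane `ℝ²`. -/
noncomputable def emb (z : ℤ × ℤ) : ℝ × ℝ := ((z.1 : ℝ), (z.2 : ℝ))

/-- A convex lattice set: a finite `F ⊆ ℤ²` with `F = conv(F) ∩ ℤ²`. -/
def IsConvexLatticeSet (F : Finset (ℤ × ℤ)) : Prop :=
  ∀ z : ℤ × ℤ, emb z ∈ convexHull ℝ (emb '' (F : Set (ℤ × ℤ))) → z ∈ F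

/-- `L` is a line of the plane. -/
def IsLine (L : AffineSubspace ℝ (ℝ × ℝ)) : Prop :=
  (L : Set (ℝ × ℝ)).Nonempty ∧ Module.finrank ℝ L.direction = 1

/-- The number of points of `E` on `L`. -/
noncomputable def countOn (E : Finset (ℤ × ℤ)) (L : AffineSubspace ℝ (ℝ × ℝ)) : ℕ :=
  (E.filter (fun z => emb z ∈ L)).card

/-- `E₁` and `E₂` have the same discrete point X-ray at `p`. -/
def SameXray (p : ℤ × ℤ) (E₁ E₂ : Finset (ℤ × ℤ)) : Prop :=
  ∀ L : AffineSubspace ℝ (ℝ × ℝ), IsLine L → emb p ∈ L → countOn E₁ L = countOn E₂ L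

/-- The class of convex lattice sets disjoint from every line through two distinct points
of `P`. -/
def InClass (P : Finset (ℤ × ℤ)) (F : Finset (ℤ × ℤ)) : Prop :=
  IsConvexLatticeSet F ∧ ∀ p ∈ P, ∀ q ∈ P, p ≠ q → ∀ L : AffineSubspace ℝ (ℝ × ℝ), IsLine L →
    emb p ∈ L → emb q ∈ L → ∀ z ∈ F, emb z ∉ L

/-- Discrete point X-rays at `P` determine convex lattice sets. -/
def Determines (P : Finset (ℤ × ℤ)) : Prop :=
  ∀ F₁ F₂ : Finset (ℤ × ℤ), InClass P F₁ → InClass P F₂ →
    (∀ p ∈ P, SameXray p F₁ F₂) → F₁ = F₂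

/-- No three distinct points of `P` lie on a line. -/
def NoThreeCollinear (P : Finset (ℤ × ℤ)) : Prop :=
  ∀ p ∈ P, ∀ q ∈ P, ∀ r ∈ P, p ≠ q → q ≠ r → p ≠ r →
    ¬ Collinear ℝ ({emb p, emb q, emb r} : Set (ℝ × ℝ))

/-- Twice the oriented area of the triangle `p`, `q`, `r`. -/
def det3 (p q r : ℤ × ℤ) : ℤ := (q.1 - p.1) * (r.2 - p.2) - (q.2 - p.2) * (r.1 - p.1)

lemma emb_inj : Function.Injective emb := by
  intro a b h
  simp only [emb, Prod.mk.injEq, Int.cast_inj] at h
  exact Prod.ext h.1 h.2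

/-- A switching configuration. -/
structure Config (n m : ℕ) where
  /-- the first half of the vertices -/
  VA : Fin n → ℤ × ℤ
  /-- the second half of the vertices -/
  VB : Fin n → ℤ × ℤ
  /-- the points at which the X-rays are taken -/
  pt : Fin m → ℤ × ℤ
  /-- the partner of a vertex with respect to a point -/
  partner : Fin m → Fin n → Fin n
  /-- functionals exposing the vertices -/
  g : Fin n ⊕ Fin n → ℤ × ℤ
  exposed : ∀ v w : Fin n ⊕ Fin n, w ≠ v →
    (g v).1 * (Sum.elim VA VB w).1 + (g v).2 * (Sum.elim VA VB w).2 <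
      (g v).1 * (Sum.elim VA VB v).1 + (g v).2 * (Sum.elim VA VB v).2
  pt_inj : Function.Injective pt
  coll : ∀ (j : Fin m) (i : Fin n), det3 (pt j) (VA i) (VB (partner j i)) = 0
  VA_ne_pt : ∀ (j : Fin m) (i : Fin n), VA i ≠ pt j
  VB_ne_pt : ∀ (j : Fin m) (i : Fin n), VB i ≠ pt j
  partner_bij : ∀ j, Function.Bijective (partner j)
  side : ∀ j k : Fin m, j ≠ k → (∀ v, 0 < det3 (pt j) (pt k) (Sum.elim VA VB v)) ∨
    (∀ v, det3 (pt j) (pt k) (Sum.elim VA VB v) < 0)

namespace Config

variable {n m : ℕ} (C : Config n m)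

/-- All vertices. -/
def V : Fin n ⊕ Fin n → ℤ × ℤ := Sum.elim C.VA C.VB

lemma V_inj : Function.Injective C.V := by
  intro v w h
  by_contra hne
  have := C.exposed v w (Ne.symm hne)
  change _ * (C.V w).1 + _ * (C.V w).2 < _ * (C.V v).1 + _ * (C.V v).2 at this
  rw [h] at this
  exact lt_irrefl _ this

/-- The filled polygon. -/
noncomputable def Q : Set (ℝ × ℝ) := convexHull ℝ (Set.range (fun v => emb (C.V v)))

lemma box : ∃ M : ℤ, ∀ v, -M ≤ (C.V v).1 ∧ (C.V v).1 ≤ M ∧ -M ≤ (C.V v).2 ∧ (C.V v).2 ≤ M := by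
  refine ⟨∑ v, (|(C.V v).1| + |(C.V v).2|), fun v => ?_⟩
  have h := Finset.single_le_sum (f := fun v => |(C.V v).1| + |(C.V v).2|)
    (fun i _ => add_nonneg (abs_nonneg _) (abs_nonneg _)) (Finset.mem_univ v)
  have h1 := abs_nonneg (C.V v).1
  have h2 := abs_nonneg (C.V v).2
  have h3 := abs_le.mp (le_refl |(C.V v).1|)
  have h4 := abs_le.mp (le_refl |(C.V v).2|)
  refine ⟨?_, ?_, ?_, ?_⟩ <;> linarith [h3.1, h3.2, h4.1, h4.2]

lemma Q_finite : {z : ℤ × ℤ | emb z ∈ C.Q}.Finite := by
  obtain ⟨M, hM⟩ := C.box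
  apply (Set.finite_Icc ((-M, -M) : ℤ × ℤ) (M, M)).subset
  intro z h
  have hb : C.Q ⊆ {q : ℝ × ℝ | -(M : ℝ) ≤ q.1 ∧ q.1 ≤ M ∧ -(M : ℝ) ≤ q.2 ∧ q.2 ≤ M} := by
    apply convexHull_min
    · rintro _ ⟨v, rfl⟩
      obtain ⟨h1, h2, h3, h4⟩ := hM v
      refine ⟨?_, ?_, ?_, ?_⟩
      · simp only [emb]; exact_mod_cast h1
      · simp only [emb]; exact_mod_cast h2
      · simp only [emb]; exact_mod_cast h3
      · simp only [emb]; exact_mod_cast h4
    · intro p hp q hq a b ha hb hab
      simp only [Set.mem_ofPred_eq, Prod.fst_add, Prod.smul_fst, smul_eq_mul, Prod.snd_add,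
        Prod.smul_snd] at *
      refine ⟨?_, ?_, ?_, ?_⟩ <;> nlinarith
  obtain ⟨h1, h2, h3, h4⟩ := hb h
  simp only [emb] at h1 h2 h3 h4
  refine ⟨⟨?_, ?_⟩, ?_, ?_⟩
  · show -M ≤ z.1
    exact_mod_cast h1
  · show -M ≤ z.2
    exact_mod_cast h3
  · show z.1 ≤ M
    exact_mod_cast h2
  · show z.2 ≤ M
    exact_mod_cast h4

/-- The set of all lattice points in the polygon. -/
noncomputable def F0 : Finset (ℤ × ℤ) := C.Q_finite.toFinset

lemma mem_F0 (z : ℤ × ℤ) : z ∈ C.F0 ↔ emb z ∈ C.Q := by
  rw [F0, Set.Finite.mem_toFinset]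
  rfl

lemma V_mem_Q (v : Fin n ⊕ Fin n) : emb (C.V v) ∈ C.Q := subset_convexHull ℝ _ ⟨v, rfl⟩

/-- The value of the exposing functional. -/
noncomputable def val (v : Fin n ⊕ Fin n) (q : ℝ × ℝ) : ℝ :=
  ((C.g v).1 : ℝ) * q.1 + ((C.g v).2 : ℝ) * q.2

lemma val_comb (v : Fin n ⊕ Fin n) (a b : ℝ) (p q : ℝ × ℝ) :
    C.val v (a • p + b • q) = a * C.val v p + b * C.val v q := by
  simp only [val, Prod.fst_add, Prod.smul_fst, smul_eq_mul, Prod.snd_add, Prod.smul_snd]
  ring

lemma val_lt (v : Fin n ⊕ Fin n) (q : ℝ × ℝ) (hq : q ∈ C.Q) (hne : q ≠ emb (C.V v)) :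
    C.val v q < C.val v (emb (C.V v)) := by
  have hsub : C.Q ⊆ {q : ℝ × ℝ | C.val v q < C.val v (emb (C.V v)) ∨ q = emb (C.V v)} := by
    apply convexHull_min
    · rintro _ ⟨w, rfl⟩
      by_cases h : w = v
      · right; rw [h]
      · left
        have := C.exposed v w h
        change _ * (C.V w).1 + _ * (C.V w).2 < _ * (C.V v).1 + _ * (C.V v).2 at this
        simp only [val, emb]
        exact_mod_cast this
    · intro p hp q hq a b ha hb hab
      rcases hp with hp | hp <;> rcases hq with hq | hq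
      · left
        show C.val v (a • p + b • q) < _
        rw [val_comb]
        rcases eq_or_lt_of_le ha with h | h
        · rw [← h] at hab ⊢
          have : b = 1 := by linarith
          rw [this]; linarith
        · have e1 := mul_lt_mul_of_pos_left hp h
          have e2 := mul_le_mul_of_nonneg_left hq.le hb
          have e3 : a * C.val v (emb (C.V v)) + b * C.val v (emb (C.V v)) =
              C.val v (emb (C.V v)) := by
            rw [← add_mul, hab, one_mul]
          linarith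
      · rcases eq_or_lt_of_le ha with h | h
        · right
          rw [← h] at hab ⊢
          have : b = 1 := by linarith
          rw [this, hq]; simp
        · left
          show C.val v (a • p + b • q) < _
          rw [val_comb, hq]
          have e1 := mul_lt_mul_of_pos_left hp h
          have e3 : a * C.val v (emb (C.V v)) + b * C.val v (emb (C.V v)) =
              C.val v (emb (C.V v)) := by
            rw [← add_mul, hab, one_mul]
          linarith
      · rcases eq_or_lt_of_le hb with h | h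
        · right
          rw [← h] at hab ⊢
          have : a = 1 := by linarith
          rw [this, hp]; simp
        · left
          show C.val v (a • p + b • q) < _
          rw [val_comb, hp]
          have e1 := mul_lt_mul_of_pos_left hq h
          have e3 : a * C.val v (emb (C.V v)) + b * C.val v (emb (C.V v)) =
              C.val v (emb (C.V v)) := by
            rw [← add_mul, hab, one_mul]
          linarith
      · right
        rw [hp, hq, ← add_smul, hab, one_smul]
  rcases hsub hq with h | h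
  · exact h
  · exact absurd h hne

/-- Removing vertices from the lattice polygon leaves a convex lattice set. -/
lemma convex_sdiff (B : Finset (ℤ × ℤ)) (hB : ∀ z ∈ B, ∃ v, z = C.V v) :
    IsConvexLatticeSet (C.F0 \ B) := by
  intro z hz
  have hsub : emb '' ((C.F0 \ B : Finset (ℤ × ℤ)) : Set (ℤ × ℤ)) ⊆ C.Q := by
    rintro _ ⟨w, hw, rfl⟩
    rw [Finset.mem_coe, Finset.mem_sdiff] at hw
    exact (C.mem_F0 w).mp hw.1
  rw [Finset.mem_sdiff]
  refine ⟨(C.mem_F0 z).mpr (convexHull_min hsub (convex_convexHull ℝ _) hz), ?_⟩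
  intro hzB
  obtain ⟨v, rfl⟩ := hB z hzB
  have hopen : convexHull ℝ (emb '' ((C.F0 \ B : Finset (ℤ × ℤ)) : Set (ℤ × ℤ))) ⊆
      {q : ℝ × ℝ | C.val v q < C.val v (emb (C.V v))} := by
    apply convexHull_min
    · rintro _ ⟨w, hw, rfl⟩
      rw [Finset.mem_coe, Finset.mem_sdiff] at hw
      apply C.val_lt v _ ((C.mem_F0 w).mp hw.1)
      intro h
      exact hw.2 (emb_inj h ▸ hzB)
    · intro p hp q hq a b ha hb hab
      show C.val v (a • p + b • q) < _
      rw [val_comb]
      have hp' : C.val v p < C.val v (emb (C.V v)) := hp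
      have hq' : C.val v q < C.val v (emb (C.V v)) := hq
      rcases eq_or_lt_of_le ha with h | h
      · rw [← h] at hab ⊢
        have : b = 1 := by linarith
        rw [this]; linarith
      · have e1 := mul_lt_mul_of_pos_left hp' h
        have e2 := mul_le_mul_of_nonneg_left hq'.le hb
        have e3 : a * C.val v (emb (C.V v)) + b * C.val v (emb (C.V v)) =
            C.val v (emb (C.V v)) := by
          rw [← add_mul, hab, one_mul]
        linarith
  have hcon : C.val v (emb (C.V v)) < C.val v (emb (C.V v)) := hopen hz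
  exact lt_irrefl _ hcon

/-- Two points collinear with `p`, both different from `p`, lie on the same subspaces
through `p`. -/
lemma mem_of_coll (p a b : ℤ × ℤ) (ha : a ≠ p)
    (h : (a.1 - p.1) * (b.2 - p.2) = (a.2 - p.2) * (b.1 - p.1))
    (L : AffineSubspace ℝ (ℝ × ℝ)) (hp : emb p ∈ L) (haL : emb a ∈ L) : emb b ∈ L := by
  have hr : ((a.1 : ℝ) - p.1) * ((b.2 : ℝ) - p.2) = ((a.2 : ℝ) - p.2) * ((b.1 : ℝ) - p.1) := by
    exact_mod_cast h
  have hN : ((a.1 : ℝ) - p.1) ^ 2 + ((a.2 : ℝ) - p.2) ^ 2 ≠ 0 := by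
    intro h0
    apply ha
    have h1 : ((a.1 : ℝ) - p.1) = 0 := by
      nlinarith [sq_nonneg ((a.1 : ℝ) - p.1), sq_nonneg ((a.2 : ℝ) - p.2)]
    have h2 : ((a.2 : ℝ) - p.2) = 0 := by
      nlinarith [sq_nonneg ((a.1 : ℝ) - p.1), sq_nonneg ((a.2 : ℝ) - p.2)]
    apply Prod.ext
    · have : (a.1 : ℝ) = p.1 := by linarith
      exact_mod_cast this
    · have : (a.2 : ℝ) = p.2 := by linarith
      exact_mod_cast this
  set t : ℝ := (((b.1 : ℝ) - p.1) * ((a.1 : ℝ) - p.1) + ((b.2 : ℝ) - p.2) * ((a.2 : ℝ) - p.2)) /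
    (((a.1 : ℝ) - p.1) ^ 2 + ((a.2 : ℝ) - p.2) ^ 2) with ht
  have key := AffineMap.lineMap_mem t hp haL
  have heq : AffineMap.lineMap (emb p) (emb a) t = emb b := by
    rw [AffineMap.lineMap_apply]
    simp only [emb, vsub_eq_sub, Prod.mk_sub_mk, Prod.smul_mk, smul_eq_mul, vadd_eq_add,
      Prod.mk_add_mk, Prod.mk.injEq]
    constructor
    · rw [ht, div_mul_eq_mul_div, div_add' _ _ _ hN, div_eq_iff hN]
      linear_combination ((a.2 : ℝ) - p.2) * hr
    · rw [ht, div_mul_eq_mul_div, div_add' _ _ _ hN, div_eq_iff hN]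
      linear_combination (-((a.1 : ℝ) - p.1)) * hr
  rw [heq] at key
  exact key

/-- The first vertices as a finite set. -/
def SA : Finset (ℤ × ℤ) := Finset.univ.image C.VA

/-- The second vertices as a finite set. -/
def SB : Finset (ℤ × ℤ) := Finset.univ.image C.VB

lemma VA_inj : Function.Injective C.VA := fun i k h =>
  Sum.inl_injective (C.V_inj (show C.V (Sum.inl i) = C.V (Sum.inl k) from h))

lemma VB_inj : Function.Injective C.VB := fun i k h =>
  Sum.inr_injective (C.V_inj (show C.V (Sum.inr i) = C.V (Sum.inr k) from h))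

lemma count_eq (j : Fin m) (L : AffineSubspace ℝ (ℝ × ℝ)) (hp : emb (C.pt j) ∈ L) :
    countOn C.SA L = countOn C.SB L := by
  unfold countOn SA SB
  rw [Finset.filter_image, Finset.filter_image, Finset.card_image_of_injective _ C.VA_inj,
    Finset.card_image_of_injective _ C.VB_inj]
  apply Finset.card_bij (fun i _ => C.partner j i)
  · intro i hi
    rw [Finset.mem_filter] at hi ⊢
    have h := C.coll j i
    rw [det3] at h
    exact ⟨Finset.mem_univ _, mem_of_coll (C.pt j) (C.VA i) (C.VB (C.partner j i))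
      (C.VA_ne_pt j i) (by linarith) L hp hi.2⟩
  · intro i _ k _ h
    exact (C.partner_bij j).1 h
  · intro k hk
    obtain ⟨i, rfl⟩ := (C.partner_bij j).2 k
    rw [Finset.mem_filter] at hk
    refine ⟨i, ?_, rfl⟩
    rw [Finset.mem_filter]
    have h := C.coll j i
    rw [det3] at h
    exact ⟨Finset.mem_univ _, mem_of_coll (C.pt j) (C.VB (C.partner j i)) (C.VA i)
      (C.VB_ne_pt j _) (by linarith) L hp hk.2⟩

lemma SA_sub : C.SA ⊆ C.F0 := by
  intro z hz
  obtain ⟨i, _, rfl⟩ := Finset.mem_image.mp hz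
  exact (C.mem_F0 _).mpr (C.V_mem_Q (Sum.inl i))

lemma SB_sub : C.SB ⊆ C.F0 := by
  intro z hz
  obtain ⟨i, _, rfl⟩ := Finset.mem_image.mp hz
  exact (C.mem_F0 _).mpr (C.V_mem_Q (Sum.inr i))

lemma count_sdiff (B : Finset (ℤ × ℤ)) (hB : B ⊆ C.F0) (L : AffineSubspace ℝ (ℝ × ℝ)) :
    countOn (C.F0 \ B) L + countOn B L = countOn C.F0 L := by
  unfold countOn
  have h1 : (C.F0 \ B).filter (fun z => emb z ∈ L) =
      C.F0.filter (fun z => emb z ∈ L) \ B.filter (fun z => emb z ∈ L) := by
    ext z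
    simp only [Finset.mem_filter, Finset.mem_sdiff]
    tauto
  rw [h1]
  exact Finset.card_sdiff_add_card_eq_card (Finset.filter_subset_filter _ hB)

lemma same_xray (j : Fin m) : SameXray (C.pt j) (C.F0 \ C.SB) (C.F0 \ C.SA) := by
  intro L _ hp
  have h1 := C.count_sdiff C.SB C.SB_sub L
  have h2 := C.count_sdiff C.SA C.SA_sub L
  have h3 := C.count_eq j L hp
  omega

/-- Points of the polygon avoid the lines through two of the points `pt j`. -/
lemma avoid (j k : Fin m) (hjk : j ≠ k) (L : AffineSubspace ℝ (ℝ × ℝ)) (hL : IsLine L)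
    (hj : emb (C.pt j) ∈ L) (hk : emb (C.pt k) ∈ L) (z : ℤ × ℤ) (hz : z ∈ C.F0) :
    emb z ∉ L := by
  intro hzL
  let c : ℝ × ℝ → ℝ := fun q => (((C.pt k).1 : ℝ) - (C.pt j).1) * (q.2 - (C.pt j).2) -
    (((C.pt k).2 : ℝ) - (C.pt j).2) * (q.1 - (C.pt j).1)
  have hne : emb (C.pt k) - emb (C.pt j) ≠ 0 := by
    rw [sub_ne_zero]
    intro h
    exact hjk (C.pt_inj (emb_inj h)).symm
  have hc0 : c (emb z) = 0 := by
    have hd1 : emb (C.pt k) - emb (C.pt j) ∈ L.direction := AffineSubspace.vsub_mem_direction hk hj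
    have hd2 : emb z - emb (C.pt j) ∈ L.direction := AffineSubspace.vsub_mem_direction hzL hj
    obtain ⟨r, hr⟩ := (finrank_eq_one_iff_of_nonzero'
      (⟨emb (C.pt k) - emb (C.pt j), hd1⟩ : L.direction)
      (fun h => hne (congrArg Subtype.val h))).mp hL.2 ⟨emb z - emb (C.pt j), hd2⟩
    have hr' : r • (emb (C.pt k) - emb (C.pt j)) = emb z - emb (C.pt j) :=
      congrArg Subtype.val hr
    have e1 := congrArg Prod.fst hr'
    have e2 := congrArg Prod.snd hr'
    simp only [emb, Prod.smul_fst, Prod.smul_snd, Prod.fst_sub, Prod.snd_sub, smul_eq_mul] at e1 e2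
    simp only [c, emb]
    rw [← e1, ← e2]
    ring
  have hQ := (C.mem_F0 z).mp hz
  have hconv : ∀ (a b : ℝ) (p q : ℝ × ℝ), a + b = 1 → c (a • p + b • q) = a * c p + b * c q := by
    intro a b p q hab
    simp only [c, Prod.fst_add, Prod.smul_fst, smul_eq_mul, Prod.snd_add, Prod.smul_snd]
    have : b = 1 - a := by linarith
    rw [this]; ring
  rcases C.side j k hjk with h | h
  · have hsub : C.Q ⊆ {q | 0 < c q} := by
      apply convexHull_min
      · rintro _ ⟨v, rfl⟩
        have := h v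
        rw [det3] at this
        simp only [c, emb, Set.mem_ofPred_eq, V]
        exact_mod_cast this
      · intro p hp q hq a b ha hb hab
        show 0 < c (a • p + b • q)
        rw [hconv a b p q hab]
        have hp' : 0 < c p := hp
        have hq' : 0 < c q := hq
        rcases eq_or_lt_of_le ha with h0 | h0
        · rw [← h0] at hab ⊢
          have : b = 1 := by linarith
          rw [this]; linarith
        · have := mul_pos h0 hp'
          have := mul_nonneg hb hq'.le
          linarith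
    have := hsub hQ
    simp only [Set.mem_ofPred_eq, hc0, lt_irrefl] at this
  · have hsub : C.Q ⊆ {q | c q < 0} := by
      apply convexHull_min
      · rintro _ ⟨v, rfl⟩
        have := h v
        rw [det3] at this
        simp only [c, emb, Set.mem_ofPred_eq, V]
        exact_mod_cast this
      · intro p hp q hq a b ha hb hab
        show c (a • p + b • q) < 0
        rw [hconv a b p q hab]
        have hp' : c p < 0 := hp
        have hq' : c q < 0 := hq
        rcases eq_or_lt_of_le ha with h0 | h0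
        · rw [← h0] at hab ⊢
          have : b = 1 := by linarith
          rw [this]; linarith
        · have := mul_neg_of_pos_of_neg h0 hp'
          have := mul_nonpos_of_nonneg_of_nonpos hb hq'.le
          linarith
    have := hsub hQ
    simp only [Set.mem_ofPred_eq, hc0, lt_irrefl] at this

/-- The points as a finite set. -/
def P : Finset (ℤ × ℤ) := Finset.univ.image C.pt

lemma card_P : C.P.card = m := by
  rw [P, Finset.card_image_of_injective _ C.pt_inj, Finset.card_univ, Fintype.card_fin]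

lemma inClass_sdiff (B : Finset (ℤ × ℤ)) (hB : ∀ z ∈ B, ∃ v, z = C.V v) :
    InClass C.P (C.F0 \ B) := by
  refine ⟨C.convex_sdiff B hB, ?_⟩
  intro p hp q hq hpq L hL hpL hqL z hz
  obtain ⟨j, _, rfl⟩ := Finset.mem_image.mp hp
  obtain ⟨k, _, rfl⟩ := Finset.mem_image.mp hq
  exact C.avoid j k (fun h => hpq (by rw [h])) L hL hpL hqL z (Finset.mem_sdiff.mp hz).1

/-- A switching configuration shows that X-rays at its points do not determine convex lattice
sets. -/
theorem not_determines (hn : 0 < n) : ¬ Determines C.P := by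
  intro h
  have hA : ∀ z ∈ C.SA, ∃ v, z = C.V v := by
    intro z hz
    obtain ⟨i, _, rfl⟩ := Finset.mem_image.mp hz
    exact ⟨Sum.inl i, rfl⟩
  have hB : ∀ z ∈ C.SB, ∃ v, z = C.V v := by
    intro z hz
    obtain ⟨i, _, rfl⟩ := Finset.mem_image.mp hz
    exact ⟨Sum.inr i, rfl⟩
  have heq := h (C.F0 \ C.SB) (C.F0 \ C.SA) (C.inClass_sdiff C.SB hB) (C.inClass_sdiff C.SA hA) (by
    intro p hp
    obtain ⟨j, _, rfl⟩ := Finset.mem_image.mp hp
    exact C.same_xray j)
  have h1 : C.VA ⟨0, hn⟩ ∈ C.F0 \ C.SB := by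
    rw [Finset.mem_sdiff]
    refine ⟨C.SA_sub (Finset.mem_image_of_mem _ (Finset.mem_univ _)), fun hm => ?_⟩
    obtain ⟨i, _, hi⟩ := Finset.mem_image.mp hm
    have h2 : C.V (Sum.inr i) = C.V (Sum.inl ⟨0, hn⟩) := hi
    exact absurd (C.V_inj h2) (by simp)
  rw [heq, Finset.mem_sdiff] at h1
  exact h1.2 (Finset.mem_image_of_mem _ (Finset.mem_univ _))

end Config

/-- If X-rays at a set of points do not determine convex lattice sets, neither do the X-rays at a
subset. -/
theorem not_determines_mono {P P' : Finset (ℤ × ℤ)} (hP : P' ⊆ P) (h : ¬ Determines P) :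
    ¬ Determines P' := by
  intro h'
  apply h
  intro F₁ F₂ h1 h2 hX
  exact h' F₁ F₂ ⟨h1.1, fun p hp q hq => h1.2 p (hP hp) q (hP hq)⟩
    ⟨h2.1, fun p hp q hq => h2.2 p (hP hp) q (hP hq)⟩ (fun p hp => hX p (hP hp))

/-- Collinear lattice points have vanishing determinant. -/
theorem det3_eq_zero (p q r : ℤ × ℤ)
    (h : Collinear ℝ ({emb p, emb q, emb r} : Set (ℝ × ℝ))) : det3 p q r = 0 := by
  rw [collinear_iff_of_mem (p₀ := emb p) (by simp)] at h
  obtain ⟨v, hv⟩ := h
  obtain ⟨a, ha⟩ := hv (emb q) (by simp)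
  obtain ⟨b, hb⟩ := hv (emb r) (by simp)
  have a1 := congrArg Prod.fst ha
  have a2 := congrArg Prod.snd ha
  have b1 := congrArg Prod.fst hb
  have b2 := congrArg Prod.snd hb
  simp only [emb, vadd_eq_add, Prod.fst_add, Prod.snd_add, Prod.smul_fst, Prod.smul_snd,
    smul_eq_mul] at a1 a2 b1 b2
  have h : (((q.1 : ℝ) - p.1) * ((r.2 : ℝ) - p.2) - ((q.2 : ℝ) - p.2) * ((r.1 : ℝ) - p.1)) = 0 := by
    rw [a1, a2, b1, b2]; ring
  rw [det3]
  exact_mod_cast h

end Pool.Agent.Y233.XR
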